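import Pool.Agent.H64.AG.Asm

/-! # The final form -/

set_option autoImplicit false

open Topology Cardinal

namespace Pool.Agent.H64.AG

open Pool.Agent.H20.SL Pool.Agent.H64.AK Pool.Agent.H60.CP

theorem ct_subspace {X : Type} [TopologicalSpace X] (hX : CT X) (F : Set X) : CT F := by
  intro A x hx
  have h1 : (x : X) ∈ closure (Subtype.val '' A) := by
    rw [← closure_subtype]
    exact hx
  obtain ⟨B, hBA, hBc, hxB⟩ := hX _ _ h1
  refine ⟨Subtype.val ⁻¹' B, ?_, ?_, ?_⟩
  · intro y hy
    obtain ⟨z, hz, hzy⟩ := hBA hy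
    have : z = y := Subtype.ext hzy
    exact this ▸ hz
  · exact hBc.preimage Subtype.val_injective
  · rw [closure_subtype]
    refine closure_mono ?_ hxB
    intro y hy
    obtain ⟨z, hz, hzy⟩ := hBA hy
    exact ⟨z, by
      show (z : X) ∈ B
      rw [hzy]
      exact hy, hzy⟩

theorem inCp_closed {X : Type} [TopologicalSpace X] [CompactSpace X] (hX : InCpLindelof X)
    {F : Set X} (hF : IsClosed F) : InCpTychonoffLindelof F := by
  have hFc : CompactSpace F := isCompact_iff_compactSpace.1 hF.isCompact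
  obtain ⟨L, hL, hLc, hLs⟩ := exists_family hX
  refine emb ((fun f : X → ℝ => fun y : F => f y.1) '' L) ?_ ?_ ?_
  · exact hL.image (continuous_pi fun y => continuous_apply y.1)
  · rintro _ ⟨f, hf, rfl⟩
    exact (hLc f hf).comp continuous_subtype_val
  · intro y y' hne
    obtain ⟨f, hf, hfne⟩ := hLs y.1 y'.1 fun h => hne (Subtype.ext h)
    exact ⟨_, ⟨f, hf, rfl⟩, hfne⟩

/-- Asanov: a compact space with Lindelof function space is countably tight -/
theorem ct_of_lindelof {X : Type} [TopologicalSpace X] [CompactSpace X] [T2Space X]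
    (hX : LindelofSpace (Cp X)) : CT X := by
  by_contra hct
  obtain ⟨F, g, hF, hg, hgs⟩ := exists_map hct
  have hFc : CompactSpace F := isCompact_iff_compactSpace.1 hF.isCompact
  have hsurj : Function.Surjective
      (fun f : Cp X => (⟨fun y : F => f.1 y.1, f.2.comp continuous_subtype_val⟩ : Cp F)) := by
    intro h
    obtain ⟨k, hk⟩ := ContinuousMap.exists_restrict_eq hF (⟨h.1, h.2⟩ : C(F, ℝ))
    refine ⟨⟨k, k.continuous⟩, Subtype.ext (funext fun y => ?_)⟩
    have := congrArg (fun u : C(F, ℝ) => u y) hk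
    exact this
  have hcont : Continuous
      (fun f : Cp X => (⟨fun y : F => f.1 y.1, f.2.comp continuous_subtype_val⟩ : Cp F)) := by
    refine Continuous.subtype_mk ?_ _
    exact continuous_pi fun y => (continuous_apply y.1).comp continuous_subtype_val
  have hLF : LindelofSpace (Cp F) := by
    constructor
    rw [← Set.range_eq_univ.2 hsurj]
    exact isLindelof_range hcont
  have := xt_t2 om_tree om_haus
  exact om_not (inCpLindelof_of (Pool.Agent.H29.AK.img F (XT Om) g hg hgs hLF).2)

theorem final (hPRM : T_PRM) (hGF : T_GF) (X : Type) [TopologicalSpace X] [CompactSpace X]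
    (hX : InCpLindelof X) : ¬ MA1 ∨ ((CT X ↔ LindelofSpace (Cp X)) ∧
      (CT X ↔ ∀ F : Set X, IsClosed F → ∀ (X₁ : Type) [TopologicalSpace X₁] [T2Space X₁]
        (g : F → X₁), Continuous g → Function.Surjective g → InCpTychonoffLindelof X₁)) := by
  by_cases hMA : MA1
  swap
  · exact Or.inl hMA
  right
  have hT2 : T2Space X := by
    obtain ⟨Y, _, _, e, he⟩ := hX
    exact he.t2Space
  refine ⟨⟨fun h => main hGF hPRM hMA X h hX, fun h => ct_of_lindelof h⟩, fun hct => ?_, ?_⟩
  · intro F hF X₁ _ _ g hg hgs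
    have hFc : CompactSpace F := isCompact_iff_compactSpace.1 hF.isCompact
    exact main_image hGF hPRM hMA F (ct_subspace hct F)
      (inCpLindelof_of (inCp_closed hX hF)) X₁ g hg hgs
  · intro h
    by_contra hct
    obtain ⟨F, g, hF, hg, hgs⟩ := exists_map hct
    have := xt_t2 om_tree om_haus
    exact om_not (inCpLindelof_of (h F hF (XT Om) g hg hgs))

end Pool.Agent.H64.AG
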