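import Pool.Agent.H64.AG.Defs
import Pool.Agent.H29.SL.CL
import Pool.Agent.H97.SL.CT
import Pool.Agent.H70.SL.CTD

/-! # A positive answer implies countable tightness (known) -/

set_option autoImplicit false

open Topology Cardinal

namespace Pool.Agent.H64.AG

open Pool.Agent.H20.SL Pool.Agent.H64.AK Pool.Agent.H60.CP

theorem om_tree : IsTree Om where
  comp := fun a b _ _ _ => le_total a b
  wf := (OmegaOne.wf (W := Om)).wf

theorem om_haus : Haus Om := by
  intro x y _ h
  rcases lt_trichotomy x y with h1 | h1 | h1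
  · exact absurd ((h x).2 h1) (lt_irrefl _)
  · exact h1
  · exact absurd ((h y).1 h1) (lt_irrefl _)

/-- the one-point compactification of `ω₁` does not embed in `C_p` of a Lindelof space -/
theorem om_not : ¬ InCpLindelof (XT Om) := by
  intro h
  have hF : FB Om := fb_of_inCp Pool.Agent.H29.SL.cl Pool.Agent.H97.SL.ct Pool.Agent.H70.SL.ctd
    om_tree om_haus (fun t => cIic t) h
  refine OmegaOne.unc (W := Om) (hF Set.univ (fun _ _ _ _ => trivial) (fun w _ => ?_) ?_)
  · refine Set.Subsingleton.finite ?_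
    rintro u ⟨hu, -⟩ v ⟨hv, -⟩
    rcases lt_trichotomy u v with h1 | h1 | h1
    · exact absurd h1 (hv.2 hu.1)
    · exact h1
    · exact absurd h1 (hu.2 hv.1)
  · refine Set.Subsingleton.finite ?_
    rintro u ⟨-, hu⟩ v ⟨-, hv⟩
    rcases le_total u v with h1 | h1
    · exact le_antisymm h1 (hv h1)
    · exact le_antisymm (hu h1) h1

/-- a compact Hausdorff space which is not countably tight has a closed subspace which maps
continuously onto the one-point compactification of `ω₁` -/
theorem exists_map {X : Type} [TopologicalSpace X] [CompactSpace X] [T2Space X] (hX : ¬ CT X) :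
    ∃ (F : Set X) (g : F → XT Om), IsClosed F ∧ Continuous g ∧ Function.Surjective g := by
  classical
  unfold CT at hX
  push Not at hX
  obtain ⟨A, x, hxA, hxB⟩ := hX
  set H : Set X := {y | ∃ B ⊆ A, B.Countable ∧ y ∈ closure B} with hH
  have hHb : ∀ C ⊆ H, C.Countable → closure C ⊆ H := by
    intro C hCH hC y hy
    have h1 : ∀ c : X, ∃ B ⊆ A, B.Countable ∧ (c ∈ C → c ∈ closure B) := by
      intro c
      by_cases hc : c ∈ C
      · obtain ⟨B, h1, h2, h3⟩ := hCH hc
        exact ⟨B, h1, h2, fun _ => h3⟩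
      · exact ⟨∅, by simp, Set.countable_empty, fun h => absurd h hc⟩
    choose B hBA hBc hcB using h1
    refine ⟨⋃ c ∈ C, B c, ?_, hC.biUnion fun c _ => hBc c, ?_⟩
    · exact Set.iUnion₂_subset fun c _ => hBA c
    · have h2 : C ⊆ closure (⋃ c ∈ C, B c) := by
        intro c hc
        exact closure_mono (Set.subset_biUnion_of_mem (u := B) hc) (hcB c hc)
      exact closure_minimal h2 isClosed_closure hy
  have hxH : x ∉ H := by
    rintro ⟨B, h1, h2, h3⟩
    exact hxB B h1 h2 h3
  -- countably many neighbourhoods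
  have hseq : ∀ U : ℕ → Set X, (∀ n, IsOpen (U n)) → (∀ n, x ∈ U n) →
      ∃ z ∈ H, ∀ n, z ∈ closure (U n) := by
    intro U hU hxU
    have h1 : ∀ n, ∃ z, z ∈ A ∧ ∀ m, m ≤ n → z ∈ U m := by
      intro n
      have h2 : IsOpen (⋂ m ∈ Set.Iic n, U m) :=
        (Set.finite_Iic n).isOpen_biInter fun m _ => hU m
      obtain ⟨z, hz1, hz2⟩ := mem_closure_iff.1 hxA _ h2 (by
        simp only [Set.mem_iInter]
        intro m _
        exact hxU m)
      refine ⟨z, hz2, fun m hm => ?_⟩
      simp only [Set.mem_iInter] at hz1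
      exact hz1 m hm
    choose z hzA hzU using h1
    let K : ℕ → Set X := fun n => closure (z '' Set.Ici n)
    have hne : (⋂ n, K n).Nonempty := by
      refine IsCompact.nonempty_iInter_of_sequence_nonempty_isCompact_isClosed K ?_ ?_ ?_ ?_
      · intro n
        exact closure_mono (Set.image_mono (Set.Ici_subset_Ici.2 (Nat.le_succ n)))
      · intro n
        exact ⟨z n, subset_closure ⟨n, le_refl n, rfl⟩⟩
      · exact isClosed_closure.isCompact
      · intro n
        exact isClosed_closure
    obtain ⟨y, hy⟩ := hne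
    rw [Set.mem_iInter] at hy
    refine ⟨y, ⟨z '' Set.Ici 0, ?_, (Set.to_countable _).image _, hy 0⟩, fun n => ?_⟩
    · rintro _ ⟨n, -, rfl⟩
      exact hzA n
    · refine closure_mono ?_ (hy n)
      rintro _ ⟨m, hm, rfl⟩
      exact hzU m n hm
  have hcount : ∀ (T : Set X → Prop) (𝒰 : Set (Set X)), 𝒰.Countable → (∀ U ∈ 𝒰, IsOpen U) →
      (∀ U ∈ 𝒰, x ∈ U) → ∃ z ∈ H, ∀ U ∈ 𝒰, z ∈ closure U := by
    intro _ 𝒰 h𝒰 h1 h2
    rcases 𝒰.eq_empty_or_nonempty with hE | hne
    · obtain ⟨z, hz, -⟩ := hseq (fun _ => Set.univ) (fun _ => isOpen_univ) (fun _ => trivial)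
      exact ⟨z, hz, by simp [hE]⟩
    · obtain ⟨f, rfl⟩ := h𝒰.exists_eq_range hne
      obtain ⟨z, hz, hz'⟩ := hseq f (fun n => h1 _ ⟨n, rfl⟩) (fun n => h2 _ ⟨n, rfl⟩)
      refine ⟨z, hz, ?_⟩
      rintro _ ⟨n, rfl⟩
      exact hz' n
  -- neighbourhoods avoiding closures
  have hsep : ∀ D : Set X, ∃ U : Set X, IsOpen U ∧ x ∈ U ∧
      (x ∉ closure D → Disjoint (closure U) (closure D)) := by
    intro D
    by_cases h : x ∈ closure D
    · exact ⟨Set.univ, isOpen_univ, trivial, fun h' => absurd h h'⟩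
    · obtain ⟨U, hU1, hU2, hU3⟩ := exists_mem_nhds_isClosed_subset
        (isClosed_closure.isOpen_compl.mem_nhds h)
      refine ⟨interior U, isOpen_interior, mem_interior_iff_mem_nhds.2 hU1, fun _ => ?_⟩
      rw [Set.disjoint_left]
      intro y hy
      exact hU3 (closure_minimal interior_subset hU2 hy)
  choose U hUo hxU hUd using hsep
  have : Nonempty X := ⟨x⟩
  obtain ⟨f, hf⟩ := wfrec (W := Om) (Y := X)
    (fun w g y => y ∈ H ∧ ∀ v, v < w → y ∈ closure (U (g '' Set.Iic v))) (by
      rintro w g g' y hgg ⟨h1, h2⟩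
      refine ⟨h1, fun v hv => ?_⟩
      have h3 : g '' Set.Iic v = g' '' Set.Iic v := by
        refine Set.image_congr ?_
        intro u hu
        exact hgg u (lt_of_le_of_lt hu hv)
      rw [← h3]
      exact h2 v hv) (by
      intro w g
      obtain ⟨z, hz, hz'⟩ := hcount (fun _ => True) ((fun v => U (g '' Set.Iic v)) '' Set.Iio w)
        ((OmegaOne.cIio w).image _) (by
          rintro _ ⟨v, -, rfl⟩
          exact hUo _) (by
          rintro _ ⟨v, -, rfl⟩
          exact hxU _)
      exact ⟨z, hz, fun v hv => hz' _ ⟨v, hv, rfl⟩⟩)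
  have hfH : ∀ w, f w ∈ H := fun w => (hf w).1
  have hdisj : ∀ v, Disjoint (closure (f '' Set.Iic v)) (closure (f '' Set.Ioi v)) := by
    intro v
    have h1 : x ∉ closure (f '' Set.Iic v) := by
      intro h
      refine hxH (hHb _ ?_ ((cIic v).image f) h)
      rintro _ ⟨w, -, rfl⟩
      exact hfH w
    have h2 : closure (f '' Set.Ioi v) ⊆ closure (U (f '' Set.Iic v)) := by
      refine closure_minimal ?_ isClosed_closure
      rintro _ ⟨w, hw, rfl⟩
      exact (hf w).2 v hw
    exact ((hUd _ h1).mono_left h2).symm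
  set F : Set X := closure (Set.range f) with hF
  have hcov : ∀ v, F ⊆ closure (f '' Set.Iic v) ∪ closure (f '' Set.Ioi v) := by
    intro v
    rw [← closure_union]
    refine closure_mono ?_
    rintro _ ⟨w, rfl⟩
    rcases le_or_gt w v with h | h
    · exact Or.inl ⟨w, h, rfl⟩
    · exact Or.inr ⟨w, h, rfl⟩
  let C : Om → Set F := fun v => {y | (y : X) ∈ closure (f '' Set.Iic v)}
  have hCcl : ∀ v, IsClosed (C v) := fun v => isClosed_closure.preimage continuous_subtype_val
  have hCop : ∀ v, IsOpen (C v) := by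
    intro v
    have h1 : C v = {y : F | (y : X) ∈ closure (f '' Set.Ioi v)}ᶜ := by
      ext y
      constructor
      · intro hy hy'
        exact Set.disjoint_left.1 (hdisj v) hy hy'
      · intro hy
        rcases hcov v y.2 with h | h
        · exact h
        · exact absurd h hy
    rw [h1]
    exact (isClosed_closure.preimage continuous_subtype_val).isOpen_compl
  have hCmono : ∀ v w, v ≤ w → C v ⊆ C w := by
    intro v w hvw y hy
    exact closure_mono (Set.image_mono (Set.Iic_subset_Iic.2 hvw)) hy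
  have hfF : ∀ w, f w ∈ F := fun w => subset_closure ⟨w, rfl⟩
  have hfC : ∀ w, (⟨f w, hfF w⟩ : F) ∈ C w := fun w => subset_closure ⟨w, le_refl w, rfl⟩
  have hfC' : ∀ w v, v < w → (⟨f w, hfF w⟩ : F) ∉ C v := by
    intro w v hvw hcon
    exact Set.disjoint_left.1 (hdisj v) hcon (subset_closure ⟨w, hvw, rfl⟩)
  -- the map
  have hmin : ∀ y : F, ∃ t : XT Om, (∀ α : Om, t = inc α → y ∈ C α ∧ ∀ β, β < α → y ∉ C β) ∧
      (t = OnePoint.infty → ∀ α, y ∉ C α) := by
    intro y
    by_cases h : ∃ α, y ∈ C α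
    · obtain ⟨α, hα, hα'⟩ := (OmegaOne.wf (W := Om)).wf.has_min {α | y ∈ C α} h
      refine ⟨inc α, fun α' hE => ?_, fun hE => ?_⟩
      · have hE' := inc_injective hE
        subst hE'
        exact ⟨hα, fun β hβ hyβ => hα' β hyβ hβ⟩
      · exact absurd hE (OnePoint.coe_ne_infty (X := TT Om) α)
    · push Not at h
      refine ⟨OnePoint.infty, fun α' hE => ?_, fun _ => h⟩
      exact absurd hE.symm (OnePoint.coe_ne_infty (X := TT Om) α')
  choose g hg1 hg2 using hmin
  have hcases : ∀ t : XT Om, t = OnePoint.infty ∨ ∃ α : Om, t = inc α := by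
    intro t
    induction t using OnePoint.rec with
    | infty => exact Or.inl rfl
    | coe α => exact Or.inr ⟨α, rfl⟩
  refine ⟨F, g, isClosed_closure, ?_, ?_⟩
  · refine continuous_def.2 ?_
    intro V hV
    rw [isOpen_iff_forall_mem_open]
    intro y hy
    have hy' : g y ∈ V := hy
    rcases hcases (g y) with h | ⟨α, h⟩
    · -- the point at infinity
      have hV1 : IsOpen ((fun t : TT Om => (t : XT Om)) ⁻¹' V) :=
        hV.preimage OnePoint.continuous_coe
      have hinf : (OnePoint.infty : XT Om) ∈ V := h ▸ hy'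
      have hV2 : IsCompact ((fun t : TT Om => (t : XT Om)) ⁻¹' V)ᶜ := by
        have := (OnePoint.isOpen_iff_of_mem hinf).1 hV
        exact this.2
      obtain ⟨t0, ht0⟩ : ∃ t0 : Om, ∀ t : Om, inc t ∉ V → t ≤ t0 := by
        obtain ⟨r, hr⟩ := hV2.elim_finite_subcover (fun t : Om => dn t)
          (fun t => dn_open t) (by
            intro t _
            exact Set.mem_iUnion.2 ⟨t, mem_dn_self (T := Om) t⟩)
        obtain ⟨t0, ht0⟩ := bdd (W := Om) (r.countable_toSet)
        refine ⟨t0, fun t ht => ?_⟩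
        have h1 : (t : TT Om) ∈ ((fun t : TT Om => (t : XT Om)) ⁻¹' V)ᶜ := ht
        obtain ⟨i, hi, hti⟩ := Set.mem_iUnion₂.1 (hr h1)
        exact (show t ≤ i from hti).trans (ht0 i hi).le
      refine ⟨(C t0)ᶜ, ?_, (hCcl t0).isOpen_compl, hg2 y h t0⟩
      intro y' hy''
      show g y' ∈ V
      rcases hcases (g y') with h1 | ⟨α', h1⟩
      · rw [h1]
        exact hinf
      · rw [h1]
        by_contra hcon
        exact hy'' (hCmono _ _ (ht0 α' hcon) (hg1 y' α' h1).1)
    · have hV1 : IsOpen ((fun t : TT Om => (t : XT Om)) ⁻¹' V) :=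
        hV.preimage OnePoint.continuous_coe
      obtain ⟨E, hE, hE'⟩ := tt_isOpen_iff.1 hV1 α (by
        show inc α ∈ V
        rw [← h]
        exact hy')
      refine ⟨C α ∩ ⋂ s ∈ E, (C s)ᶜ, ?_, ?_, ?_⟩
      · rintro y' ⟨h1, h2⟩
        show g y' ∈ V
        have h2 := Set.mem_iInter₂.1 h2
        rcases hcases (g y') with h3 | ⟨α', h3⟩
        · exact absurd h1 (hg2 y' h3 α)
        · rw [h3]
          refine hE' α' ?_ ?_
          · by_contra hcon
            exact (hg1 y' α' h3).2 α (not_le.1 hcon) h1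
          · intro s hs hcon
            exact h2 s hs (hCmono _ _ hcon (hg1 y' α' h3).1)
      · exact (hCop α).inter (isOpen_biInter_finset fun s _ => (hCcl s).isOpen_compl)
      · refine ⟨(hg1 y α h).1, ?_⟩
        refine Set.mem_iInter₂.2 ?_
        intro s hs
        exact (hg1 y α h).2 s (hE s hs)
  · intro t
    rcases hcases t with h | ⟨α, h⟩
    · -- infinity
      have hFc : CompactSpace F := isCompact_iff_compactSpace.1 isClosed_closure.isCompact
      by_contra hcon
      push Not at hcon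
      have hall : ∀ y : F, ∃ α, y ∈ C α := by
        intro y
        rcases hcases (g y) with h1 | ⟨α, h1⟩
        · exact absurd (h1.trans h.symm) (hcon y)
        · exact ⟨α, (hg1 y α h1).1⟩
      obtain ⟨r, hr⟩ := isCompact_univ.elim_finite_subcover C hCop (by
        intro y _
        exact Set.mem_iUnion.2 (hall y))
      obtain ⟨t0, ht0⟩ := bdd (W := Om) (r.countable_toSet)
      obtain ⟨i, hi, hti⟩ := Set.mem_iUnion₂.1 (hr (Set.mem_univ (⟨f t0, hfF t0⟩ : F)))
      exact hfC' t0 i (ht0 i hi) hti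
    · refine ⟨⟨f α, hfF α⟩, ?_⟩
      rw [h]
      rcases hcases (g ⟨f α, hfF α⟩) with h1 | ⟨α', h1⟩
      · exact absurd (hfC α) (hg2 _ h1 α)
      · rw [h1]
        congr 1
        rcases lt_trichotomy α' α with h2 | h2 | h2
        · exact absurd (hg1 _ α' h1).1 (hfC' α α' h2)
        · exact h2
        · exact absurd (hfC α) ((hg1 _ α' h1).2 α h2)

/-- if the answer to Arhangelskii's question is positive, then compact subspaces of function
spaces of Lindelof spaces are countably tight -/
theorem ct_of_positive (hpos : ArhangelskiiPositive) (X : Type) [TopologicalSpace X]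
    [CompactSpace X] [T2Space X] (hX : InCpLindelof X) : CT X := by
  by_contra hct
  obtain ⟨F, g, hF, hg, hgs⟩ := exists_map hct
  have hFc : CompactSpace F := isCompact_iff_compactSpace.1 hF.isCompact
  obtain ⟨L, hL, hLc, hLs⟩ := exists_family hX
  have hFin : InCpTychonoffLindelof F := by
    refine emb ((fun f : X → ℝ => fun y : F => f y.1) '' L) ?_ ?_ ?_
    · exact hL.image (continuous_pi fun y => continuous_apply y.1)
    · rintro _ ⟨f, hf, rfl⟩
      exact (hLc f hf).comp continuous_subtype_val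
    · intro y y' hne
      obtain ⟨f, hf, hfne⟩ := hLs y.1 y'.1 fun h => hne (Subtype.ext h)
      exact ⟨_, ⟨f, hf, rfl⟩, hfne⟩
  exact om_not (hpos F (XT Om) hFc inferInstance hFin (xt_t2 om_tree om_haus) ⟨g, hg, hgs⟩)

end Pool.Agent.H64.AG
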