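import Pool.Agent.H64.AG.BAD
import Pool.Agent.H64.AG.Tight
import Pool.Agent.H64.AK.BAT
import Pool.Agent.H64.AK.IIC
import Pool.Agent.H64.AK.CCC
import Pool.Agent.H12.AK.STP
import Pool.Agent.H12.AK.TGT
import Pool.Agent.H19.AK.DNS
import Pool.Agent.H19.AK.TRE
import Pool.Agent.H24.AK.CLL
import Pool.Agent.H24.AK.CND
import Pool.Agent.H29.AK.IMG
import Pool.Agent.H29.AK.WID
import Pool.Agent.H54.AK.SW
import Pool.Agent.H81.AK.FIL
import Pool.Agent.H17.AG.CDS
import Pool.Agent.H17.AG.DIC
import Pool.Agent.H17.AG.RED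
import Pool.Agent.H19.AG.CC
import Pool.Agent.H19.AG.MN1
import Pool.Agent.H19.AG.MON
import Pool.Agent.H42.AG.CN2
import Pool.Agent.H42.AG.POL
import Pool.Agent.H47.AG.TP
import Pool.Agent.H47.AG.TP1
import Pool.Agent.H48.AG.LAC
import Pool.Agent.H48.AG.SZ
import Pool.Agent.H69.AG.SWF
import Pool.Agent.H74.AG.CLU
import Pool.Agent.H74.AG.DEN
import Pool.Agent.H86.AG.MT
import Pool.Agent.H86.AG.NMX
import Pool.Agent.H86.AG.STP2
import Pool.Agent.H91.AG.CTI
import Pool.Agent.H91.AG.MN2

/-! # Assembly -/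

set_option autoImplicit false

open Topology Cardinal

namespace Pool.Agent.H64.AG

open Pool.Agent.H20.SL Pool.Agent.H64.AK Pool.Agent.H60.CP

theorem sw' : Pool.Agent.H64.AK.T_SW := Pool.Agent.H54.AK.sw
theorem pol' : T_POL := Pool.Agent.H42.AG.pol sw'
theorem swf' : T_SWF := Pool.Agent.H69.AG.swf pol'
theorem dic' : T_DIC := Pool.Agent.H17.AG.dic swf'
theorem tp' : T_TP := Pool.Agent.H47.AG.tp Pool.Agent.H47.AG.tp1
theorem cc' : T_CC := Pool.Agent.H19.AG.cc Pool.Agent.H48.AG.sz
theorem cn2' : T_CN2 := Pool.Agent.H42.AG.cn2 sw' Pool.Agent.H86.AG.stp2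
theorem bat' : T_BAT := bat Pool.Agent.H12.AK.tgt Pool.Agent.H24.AK.cll

theorem mon' (hGF : T_GF) : T_MON :=
  Pool.Agent.H19.AG.mon (Pool.Agent.H19.AG.mn1 hGF cc' Pool.Agent.H47.AG.tp1 tp')
    (Pool.Agent.H91.AG.mn2 hGF Pool.Agent.H48.AG.lac pol')

theorem bad' (hPRM : T_PRM) : T_BAD :=
  bad hPRM Pool.Agent.H86.AG.nmx Pool.Agent.H74.AG.clu Pool.Agent.H48.AG.lac pol'

theorem mt' (hGF : T_GF) (hPRM : T_PRM) : T_MT :=
  Pool.Agent.H86.AG.mt Pool.Agent.H74.AG.den dic' (mon' hGF) Pool.Agent.H17.AG.cds (bad' hPRM)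

theorem red' (hGF : T_GF) (hPRM : T_PRM) : T_RED :=
  Pool.Agent.H17.AG.red (mt' hGF hPRM) Pool.Agent.H91.AG.cti

/-- approximate co-countable convergence implies that `C_p(X)` is Lindelof -/
theorem lindelof_of_coConv2 (X : Type) [TopologicalSpace X] [CompactSpace X] (E : Set (X → ℝ))
    (hE : Sep E) (hC : CoConv2 E) : LindelofSpace (Cp X) := by
  rcases E.eq_empty_or_nonempty with h0 | hne
  · -- then `X` has at most one point
    subst h0
    have hsub : ∀ x y : X, x = y := by
      intro x y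
      by_contra hxy
      obtain ⟨f, hf, -⟩ := hE.2 x y hxy
      exact hf
    have hE' : Sep ({0} : Set (X → ℝ)) := by
      refine ⟨fun f hf => ?_, fun x y hxy => absurd (hsub x y) hxy⟩
      rw [Set.mem_singleton_iff.1 hf]
      exact continuous_const
    have hC' : CoConv2 ({0} : Set (X → ℝ)) := by
      intro I e he hI ε hε
      refine ⟨Set.univ, 0, continuous_const, ?_, fun x => ?_⟩
      · intro h
        exact hI (Set.countable_univ_iff.1 h)
      · have h1 : {i | i ∈ (Set.univ : Set I) ∧ ε ≤ |e i x - (0 : X → ℝ) x|} = ∅ := by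
          ext i
          constructor
          · rintro ⟨-, h⟩
            rw [Set.mem_singleton_iff.1 (he i)] at h
            have h' : ε ≤ 0 := by simpa using h
            exact absurd h' (not_le.2 hε)
          · intro h
            exact absurd h (Set.notMem_empty i)
        rw [h1]
        exact Set.countable_empty
    exact bat' X (cn2' X _ (Set.singleton_nonempty _) hE' hC')
  · exact bat' X (cn2' X E hne hE hC)

theorem main (hGF : T_GF) (hPRM : T_PRM) (hMA : MA1) (X : Type) [TopologicalSpace X]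
    [CompactSpace X] [T2Space X] (hCT : CT X) (hX : InCpLindelof X) : LindelofSpace (Cp X) := by
  obtain ⟨L, hL, hLc, hLs⟩ := exists_family hX
  exact lindelof_of_coConv2 X L ⟨hLc, hLs⟩ (red' hGF hPRM hMA X hCT L hL ⟨hLc, hLs⟩)

theorem main_image (hGF : T_GF) (hPRM : T_PRM) (hMA : MA1) (X : Type) [TopologicalSpace X]
    [CompactSpace X] [T2Space X] (hCT : CT X) (hX : InCpLindelof X) (X₁ : Type)
    [TopologicalSpace X₁] [T2Space X₁] (g : X → X₁) (hg : Continuous g)
    (hgs : Function.Surjective g) : InCpTychonoffLindelof X₁ :=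
  (Pool.Agent.H29.AK.img X X₁ g hg hgs (main hGF hPRM hMA X hCT hX)).2

/-- trees -/
theorem tree_main (hMA : MA1) (T : Type) [PartialOrder T] (hT : IsTree T) (hH : Haus T)
    (hX : InCpLindelof (XT T)) : LindelofSpace (Cp (XT T)) := by
  have hI : ∀ t : T, (Set.Iic t).Countable := iic_of_inCp hT hX
  have hF : FB T := fb_of_inCp Pool.Agent.H29.SL.cl Pool.Agent.H97.SL.ct Pool.Agent.H70.SL.ctd
    hT hH hI hX
  have hdns : T_DNS := Pool.Agent.H19.AK.dns ccc
  have hW : Wide T := Pool.Agent.H29.AK.wid (Pool.Agent.H81.AK.fil ccc hdns) hMA T hT hI hF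
  have hC := Pool.Agent.H19.AK.tre T hT hH hI hW
  have hS : Sep (insert (0 : XT T → ℝ) (Set.range fun t : T => (chi t : XT T → ℝ))) := by
    refine ⟨?_, ?_⟩
    · rintro f (rfl | ⟨t, rfl⟩)
      · exact continuous_const
      · exact chi_continuous hT hH t
    · have hcases : ∀ x : XT T, x = OnePoint.infty ∨ ∃ t : T, x = inc t := by
        intro x
        induction x using OnePoint.rec with
        | infty => exact Or.inl rfl
        | coe t => exact Or.inr ⟨t, rfl⟩
      have hpf1 : ∀ s t : T, s ≤ t → chi t (inc s) = 1 := by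
        intro s t hst
        rw [chi_inc]
        rcases pf_apply t s with h | h
        · exact h.1
        · exact absurd hst h.2
      have hpf0 : ∀ s t : T, ¬ s ≤ t → chi t (inc s) = 0 := by
        intro s t hst
        rw [chi_inc]
        rcases pf_apply t s with h | h
        · exact absurd h.2 hst
        · exact h.1
      intro x y hxy
      rcases hcases x with rfl | ⟨s, rfl⟩
      · rcases hcases y with rfl | ⟨t, rfl⟩
        · exact absurd rfl hxy
        · refine ⟨chi t, Or.inr ⟨t, rfl⟩, ?_⟩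
          rw [chi_infty, hpf1 t t le_rfl]
          norm_num
      · rcases hcases y with rfl | ⟨t, rfl⟩
        · refine ⟨chi s, Or.inr ⟨s, rfl⟩, ?_⟩
          rw [chi_infty, hpf1 s s le_rfl]
          norm_num
        · by_cases hst : s ≤ t
          · have hts : ¬ t ≤ s := fun h => hxy (congrArg inc (le_antisymm hst h))
            refine ⟨chi s, Or.inr ⟨s, rfl⟩, ?_⟩
            rw [hpf1 s s le_rfl, hpf0 t s hts]
            norm_num
          · refine ⟨chi t, Or.inr ⟨t, rfl⟩, ?_⟩
            rw [hpf1 t t le_rfl, hpf0 s t hst]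
            norm_num
  exact bat' (XT T) (Pool.Agent.H24.AK.cnd sw' Pool.Agent.H12.AK.stp (XT T) _
    (Set.insert_nonempty _ _) hS hC)

end Pool.Agent.H64.AG
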