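import Pool.Agent.H64.AG.Defs

/-! # The second alternative of the dichotomy is impossible -/

set_option autoImplicit false

open Topology Cardinal

namespace Pool.Agent.H64.AG

open Pool.Agent.H20.SL Pool.Agent.H64.AK Pool.Agent.H60.CP

/-- values above a bound are (almost) attained on dense subsets -/
theorem dense_gt {Y : Type} [TopologicalSpace Y] {P W : Set Y} (hPW : P ⊆ closure W) {u : Y → ℝ}
    (hu : Continuous u) {z : Y} (hz : z ∈ P) {r : ℝ} (hr : r < |u z|) :
    ∃ w ∈ W, r < |u w| := by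
  have h1 : IsOpen {y | r < |u y|} := isOpen_lt continuous_const hu.abs
  obtain ⟨w, hw1, hw2⟩ := mem_closure_iff.1 (hPW hz) _ h1 hr
  exact ⟨w, hw2, hw1⟩

theorem bad (hPRM : T_PRM) (hNMX : T_NMX) (hCLU : T_CLU) (hLAC : T_LAC) (hPOL : T_POL) :
    T_BAD := by
  classical
  intro hMA X _ _ _ hCT L l hS d B ε hB hε hW hcount
  have hl : ∀ ξ, Continuous (l ξ) := fun ξ => hS.cont _ (hS.mem ξ)
  set R : ℝ := ε / 6 with hR
  have hR0 : 0 < R := by positivity
  -- dense sets
  have hW' : ∀ δ : Om, ∃ W : Set (X × X), W ⊆ PP l d δ ∧ W.Countable ∧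
      (δ ∈ Cl B → PP l d δ ⊆ closure W) := by
    intro δ
    by_cases h : δ ∈ Cl B
    · obtain ⟨W, h1, h2, h3⟩ := hW δ h
      exact ⟨W, h1, h2, fun _ => h3⟩
    · exact ⟨∅, by simp, Set.countable_empty, fun h' => absurd h' h⟩
  choose W hWP hWc hWd using hW'
  -- the next element
  have hnx : ∀ γ : Om, ∃ δ, δ ∈ Cl B ∧ γ < δ ∧ True := by
    intro γ
    obtain ⟨δ, h1, h2⟩ := hCLU B hB γ
    exact ⟨δ, h1, h2, trivial⟩
  choose nx hnxC hnxlt _ using hnx
  have hOm : Nonempty Om := by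
    by_contra h
    rw [not_nonempty_iff] at h
    exact OmegaOne.unc (W := Om) (Set.to_countable _)
  obtain ⟨w0⟩ := hOm
  set c0 : Om := nx w0 with hc0
  have hc0C : c0 ∈ Cl B := hnxC w0
  set Ξ : Om → Set Om := fun δ => {ξ | ∀ z ∈ PP l d δ, |df (l ξ) z| < ε} with hΞ
  have hΞc : ∀ δ ∈ Cl B, (Ξ δ).Countable := hcount
  let Z : Option Om → Set (X × X) := fun o => match o with
    | none => W c0
    | some γ => W γ ∪ W (nx γ)
  let N : Option Om → Set Om := fun o => match o with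
    | none => Ξ c0
    | some γ => Ξ (nx γ)
  have hZc : ∀ o, (Z o).Countable := by
    intro o
    rcases o with _ | γ
    · exact hWc c0
    · exact (hWc γ).union (hWc (nx γ))
  have hNc : ∀ o, (N o).Countable := by
    intro o
    rcases o with _ | γ
    · exact hΞc c0 hc0C
    · exact hΞc _ (hnxC γ)
  have hlev : ∀ δ ∈ Cl B, ∀ p : MvPolynomial Om ℚ, (∀ z ∈ PP l d δ, |df (ev l p) z| < 3 * R) →
      ∀ ξ, ξ ∉ Ξ δ → ∃ w ∈ W δ, 2 * R ≤ |df (l ξ) w - df (ev l p) w| := by
    intro δ hδ p hp ξ hξ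
    have h1 : ∃ z ∈ PP l d δ, ε ≤ |df (l ξ) z| := by
      by_contra hcon
      push Not at hcon
      exact hξ hcon
    obtain ⟨z, hz, hzε⟩ := h1
    obtain ⟨w, hw, hwR⟩ := dense_gt (hWd δ hδ) (df_continuous (hl ξ)) hz
      (show 5 * R < |df (l ξ) z| by
        have : ε = 6 * R := by rw [hR]; ring
        linarith)
    refine ⟨w, hw, ?_⟩
    have h2 := hp w (hWP δ hw)
    have h3 : |df (l ξ) w| - |df (ev l p) w| ≤ |df (l ξ) w - df (ev l p) w| :=
      abs_sub_abs_le_abs_sub _ _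
    linarith
  obtain ⟨J, hJ, hJF⟩ := hPRM hMA X hCT l hl Z N R hR0 hZc hNc (by
    intro p
    rcases hNMX X l d B hl hB p (3 * R) (by positivity) with h | ⟨γ, hγ, ⟨z, hz, hza⟩, hγ'⟩
    · refine ⟨none, fun γ hγ => by simp at hγ, fun ξ hξ => ?_⟩
      exact hlev c0 hc0C p (h c0 hc0C) ξ hξ
    · refine ⟨some γ, fun γ' hγγ' => ?_, fun ξ hξ => ?_⟩
      · have hE : γ = γ' := by simpa using hγγ'
        subst hE
        obtain ⟨w, hw, hwR⟩ := dense_gt (hWd γ hγ) (df_continuous (ev_continuous hl p)) hz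
          (show 2 * R < |df (ev l p) z| by linarith)
        exact ⟨w, Or.inl hw, (hWP γ hw).2.2, hwR.le⟩
      · obtain ⟨w, hw, hwR⟩ := hlev (nx γ) (hnxC γ) p (hγ' _ (hnxC γ) (hnxlt γ)) ξ hξ
        exact ⟨w, Or.inr hw, hwR⟩)
  obtain ⟨f, hf, hfacc⟩ := hLAC X L hS.lind J (fun j => l j.1) (fun j => hS.mem _) (by
    intro h
    exact hJ (Set.countable_coe_iff.1 h))
  obtain ⟨p, hp⟩ := hPOL X Om l hl hS.sep f (hS.cont f hf) (R / 8) (by positivity)
  obtain ⟨F, hF1, hF2⟩ := hJF p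
  set U : Set (X → ℝ) := ⋂ u ∈ F, {k : X → ℝ | |df k u.1 - (u.2 : ℝ)| < R} with hU
  have hUo : IsOpen U := by
    refine isOpen_biInter_finset ?_
    intro u _
    refine isOpen_lt ?_ continuous_const
    refine Continuous.abs ?_
    refine Continuous.sub ?_ continuous_const
    exact (continuous_apply u.1.1).sub (continuous_apply u.1.2)
  have hfU : f ∈ U := by
    simp only [hU, Set.mem_iInter]
    intro u hu
    show |df f u.1 - (u.2 : ℝ)| < R
    have h1 := hF1 u hu
    have h2 := hp u.1.1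
    have h3 := hp u.1.2
    have h4 : |df f u.1 - df (ev l p) u.1| < R / 4 := by
      unfold df
      rw [abs_lt] at h2 h3 ⊢
      constructor <;> linarith [h2.1, h2.2, h3.1, h3.2]
    rw [abs_lt] at h1 h4 ⊢
    constructor <;> linarith [h1.1, h1.2, h4.1, h4.2]
  apply hfacc U hUo hfU
  have h1 : (Subtype.val '' {j : J | l j.1 ∈ U}).Countable := by
    refine hF2.mono ?_
    rintro _ ⟨j, hj, rfl⟩
    refine ⟨j.2, ?_⟩
    intro u hu
    have hj' : l j.1 ∈ U := hj
    simp only [hU, Set.mem_iInter] at hj'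
    exact hj' u hu
  exact Set.countable_of_injective_of_countable_image Subtype.val_injective.injOn h1

end Pool.Agent.H64.AG
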