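import Pool.Agent.H64.AK.Om

/-!
# Martin's axiom and compact subspaces of `C_p` of Lindelof spaces (MP_bff2e5_gt): definitions
-/

set_option autoImplicit false

open Topology Cardinal

namespace Pool.Agent.H64.AG

open Pool.Agent.H20.SL Pool.Agent.H64.AK Pool.Agent.H60.CP

/-- countable tightness -/
def CT (X : Type) [TopologicalSpace X] : Prop :=
  ∀ (A : Set X) (x : X), x ∈ closure A → ∃ B ⊆ A, B.Countable ∧ x ∈ closure B

/-- every uncountable family of members of `E` has, for every `ε > 0`, an uncountable subfamily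
which converges co-countably, up to `ε`, to a continuous function -/
def CoConv2 {X : Type} [TopologicalSpace X] (E : Set (X → ℝ)) : Prop :=
  ∀ (I : Type) (e : I → X → ℝ), (∀ i, e i ∈ E) → ¬ Countable I → ∀ ε : ℝ, 0 < ε →
    ∃ (J : Set I) (c : X → ℝ), Continuous c ∧ ¬ J.Countable ∧
      ∀ x, {i | i ∈ J ∧ ε ≤ |e i x - c x|}.Countable

/-- the polynomial `p` in the functions `l i` -/
noncomputable def ev {X ι : Type} (l : ι → X → ℝ) (p : MvPolynomial ι ℚ) (x : X) : ℝ :=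
  MvPolynomial.aeval (fun i => l i x) p

theorem ev_continuous {X ι : Type} [TopologicalSpace X] {l : ι → X → ℝ}
    (hl : ∀ i, Continuous (l i)) (p : MvPolynomial ι ℚ) : Continuous (ev l p) := by
  unfold ev
  induction p using MvPolynomial.induction_on with
  | C a => simpa using continuous_const
  | add p q hp hq =>
    simp only [map_add]
    exact hp.add hq
  | mul_X p i hp =>
    simp only [map_mul, MvPolynomial.aeval_X]
    exact hp.mul (hl i)

theorem ev_congr {X ι : Type} {l : ι → X → ℝ} {p : MvPolynomial ι ℚ} {x y : X}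
    (h : ∀ i ∈ p.vars, l i x = l i y) : ev l p x = ev l p y := by
  unfold ev
  exact MvPolynomial.eval₂Hom_congr' rfl (fun i hi _ => h i hi) rfl

theorem ev_rename {X ι κ : Type} {l : ι → X → ℝ} (f : κ → ι) (p : MvPolynomial κ ℚ) (x : X) :
    ev l (MvPolynomial.rename f p) x = ev (fun k => l (f k)) p x := by
  unfold ev
  rw [MvPolynomial.aeval_rename]
  rfl

/-- the difference of the values at the two points of a pair -/
def df {X : Type} (f : X → ℝ) (z : X × X) : ℝ := f z.1 - f z.2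

theorem df_continuous {X : Type} [TopologicalSpace X] {f : X → ℝ} (hf : Continuous f) :
    Continuous (df f) :=
  (hf.comp continuous_fst).sub (hf.comp continuous_snd)

/-- no two members of `p` (equal or not) are in the relation `Bad` -/
def Free {S : Type} (Bad : S → S → Prop) (p : Set S) : Prop := ∀ s ∈ p, ∀ t ∈ p, ¬ Bad s t

/-- the countable chain condition for the finite free sets -/
def FCC {S : Type} (Bad : S → S → Prop) : Prop := ∀ (A : Type) (p : A → Finset S),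
  ¬ Countable A → (∀ b, Free Bad (p b : Set S)) →
    ∃ b b', b ≠ b' ∧ ∀ s ∈ p b, ∀ t ∈ p b', ¬ Bad s t

/-- all finite powers have countable tightness -/
def PCT (Y : Type) [TopologicalSpace Y] : Prop := ∀ (ι : Type) [Finite ι], CT (ι → Y)

/-- `l` is an `ω₁`-sequence of members of the Lindelof family `L` of continuous functions which
separates the points of `X` -/
structure Sys (X : Type) [TopologicalSpace X] (L : Set (X → ℝ)) (l : Om → X → ℝ) : Prop where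
  lind : IsLindelof L
  cont : ∀ f ∈ L, Continuous f
  mem : ∀ ξ, l ξ ∈ L
  sep : ∀ x y, (∀ ξ, l ξ x = l ξ y) → x = y

/-- pairs of points of the closed set `F_δ` which are not separated by the functions before `δ` -/
def PP {X : Type} [TopologicalSpace X] (l : Om → X → ℝ) (d : Om → X) (δ : Om) : Set (X × X) :=
  {z | z.1 ∈ closure (d '' Set.Iio δ) ∧ z.2 ∈ closure (d '' Set.Iio δ) ∧
    ∀ ξ, ξ < δ → l ξ z.1 = l ξ z.2}

/-- the elements closed under the function `B` -/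
def Cl (B : Om → Om) : Set Om := {δ | (∃ β, β < δ) ∧ ∀ β, β < δ → B β < δ}

/-! ## Targets -/

/-- STP2: the refinement sequence -/
def T_STP2 : Prop := ∀ (X : Type) [TopologicalSpace X] (E : Set (X → ℝ)), CoConv2 E →
  ∀ (I : Type) (e : I → ℕ → ℕ → X → ℝ) (p : I → ℕ → MvPolynomial ℕ ℚ), (∀ i n j, e i n j ∈ E) →
  ¬ Countable I →
  ∃ (J : ℕ → Set I) (q : ℕ → MvPolynomial ℕ ℚ) (c : ℕ → ℕ → X → ℝ),
    Antitone J ∧ (∀ m, ¬ (J m).Countable) ∧ (∀ n j, Continuous (c n j)) ∧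
    (∀ n, ∃ M, ∀ m, M ≤ m → ∀ i ∈ J m, p i n = q n) ∧
    ∀ n j k : ℕ, ∃ M, ∀ m, M ≤ m → ∀ x,
      {i | i ∈ J m ∧ 1 / ((k : ℝ) + 1) ≤ |e i n j x - c n j x|}.Countable

/-- CN2: approximate co-countable convergence gives condensation points -/
def T_CN2 : Prop := ∀ (X : Type) [TopologicalSpace X] [CompactSpace X] (E : Set (X → ℝ)),
  E.Nonempty → Sep E → CoConv2 E → CondPt X

/-- GF: the general form of the application of Martin's axiom -/
def T_GF : Prop := MA1 → ∀ (S : Type) (Bad : S → S → Prop), (∀ s t, Bad s t → Bad t s) →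
  FCC Bad → ∀ (K : Type) (R : K → Set S), #K ≤ ℵ₁ →
  (∀ k, ∀ p : Finset S, Free Bad (p : Set S) →
    ∃ s ∈ R k, Free Bad (insert s (p : Set S))) →
  ∀ S₀ : Set S, ¬ S₀.Countable → #S₀ ≤ ℵ₁ → (∀ s ∈ S₀, ¬ Bad s s) →
  ∃ G : Set S, Free Bad G ∧ (∀ k, ∃ s ∈ R k, s ∈ G) ∧ ¬ (G ∩ S₀).Countable

/-- TP1: products of two compact countably tight spaces -/
def T_TP1 : Prop := ∀ (X Y : Type) [TopologicalSpace X] [TopologicalSpace Y] [CompactSpace X]
  [CompactSpace Y] [T2Space X] [T2Space Y], CT X → CT Y → CT (X × Y)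

/-- TP: finite powers of compact countably tight spaces -/
def T_TP : Prop := ∀ (X : Type) [TopologicalSpace X] [CompactSpace X] [T2Space X], CT X → PCT X

/-- CTI: images of compact countably tight spaces -/
def T_CTI : Prop := ∀ (X Y : Type) [TopologicalSpace X] [TopologicalSpace Y] [CompactSpace X]
  [T2Space Y] (g : X → Y), Continuous g → Function.Surjective g → CT X → CT Y

/-- SZ: two members of an uncountable family of finite sets which do not interact -/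
def T_SZ : Prop := ∀ (Y : Type) [TopologicalSpace Y] [CompactSpace Y], PCT Y →
  ∀ (ι κ : Type) [Finite ι] [Finite κ] (A : Type) (z : A → ι → Y) (h : A → κ → Y → ℝ) (c : ℝ),
  ¬ Countable A → (∀ b j, Continuous (h b j)) → 0 < c →
  (∀ b j i, {b' | c / 2 ≤ |h b j (z b' i)|}.Countable) →
  ∃ b b', b ≠ b' ∧ ∀ i j, |h b j (z b' i)| < c ∧ |h b' j (z b i)| < c

/-- CC: the countable chain condition -/
def T_CC : Prop := ∀ (Y : Type) [TopologicalSpace Y] [CompactSpace Y], PCT Y →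
  ∀ (S : Type) (Bad : S → S → Prop) (z : S → Y) (h : S → Y → ℝ) (S₀ : Set S) (c : ℝ),
  (∀ s, Continuous (h s)) → 0 < c → S₀.Countable → (∀ s, {t | c / 2 ≤ |h s (z t)|}.Countable) →
  (∀ s t, Bad s t → s ∈ S₀ ∨ t ∈ S₀ ∨ c ≤ |h s (z t)| ∨ c ≤ |h t (z s)|) → FCC Bad

/-- LAC: complete accumulation points in Lindelof sets -/
def T_LAC : Prop := ∀ (X : Type) (L : Set (X → ℝ)), IsLindelof L → ∀ (J : Type) (l : J → X → ℝ),
  (∀ j, l j ∈ L) → ¬ Countable J → ∃ f ∈ L, ∀ U : Set (X → ℝ), IsOpen U → f ∈ U →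
    ¬ {j | l j ∈ U}.Countable

/-- POL: density of the rational polynomials -/
def T_POL : Prop := ∀ (X : Type) [TopologicalSpace X] [CompactSpace X] (ι : Type)
  (l : ι → X → ℝ), (∀ i, Continuous (l i)) → (∀ x y, (∀ i, l i x = l i y) → x = y) →
  ∀ f : X → ℝ, Continuous f → ∀ ε : ℝ, 0 < ε →
    ∃ p : MvPolynomial ι ℚ, ∀ x, |f x - ev l p x| < ε

/-- SWF: approximation of functions which are almost constant on the fibres -/
def T_SWF : Prop := ∀ (X : Type) [TopologicalSpace X] [CompactSpace X] (F : Set X), IsClosed F →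
  ∀ (ι : Type) (l : ι → X → ℝ), (∀ i, Continuous (l i)) → ∀ f : X → ℝ, Continuous f →
  ∀ ε : ℝ, 0 < ε → (∀ x ∈ F, ∀ y ∈ F, (∀ i, l i x = l i y) → |f x - f y| < ε) →
    ∃ p : MvPolynomial ι ℚ, ∀ x ∈ F, |f x - ev l p x| < ε

/-- MN1: an almost biorthogonal uncountable subfamily -/
def T_MN1 : Prop := MA1 → ∀ (X : Type) [TopologicalSpace X] [CompactSpace X] [T2Space X], CT X →
  ∀ (h : Om → X → ℝ) (z : Om → X × X), (∀ δ, Continuous (h δ)) → (∀ δ, df (h δ) (z δ) ≠ 0) →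
  (∀ δ, {δ' | df (h δ) (z δ') ≠ 0}.Countable) →
  ∃ (I : Set Om) (ε : ℝ), 0 < ε ∧ ¬ I.Countable ∧ (∀ δ ∈ I, ε ≤ |df (h δ) (z δ)|) ∧
    ∀ δ ∈ I, ∀ δ' ∈ I, δ ≠ δ' → |df (h δ) (z δ')| < ε / 2

/-- MN2: no almost biorthogonal uncountable subfamily in a separable subspace -/
def T_MN2 : Prop := MA1 → ∀ (X : Type) [TopologicalSpace X] [CompactSpace X] [T2Space X]
  (L : Set (X → ℝ)) (l : Om → X → ℝ), Sys X L l → ∀ (D : Set X), D.Countable →
  ∀ (I : Set Om) (ε : ℝ) (h : Om → X → ℝ) (z : Om → X × X), 0 < ε → ¬ I.Countable →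
  (∀ δ, h δ ∈ L) → (∀ δ, (z δ).1 ∈ closure D ∧ (z δ).2 ∈ closure D) →
  (∀ δ ∈ I, ε ≤ |df (h δ) (z δ)|) →
  ¬ ∀ δ ∈ I, ∀ δ' ∈ I, δ ≠ δ' → |df (h δ) (z δ')| < ε / 2

/-- MON: closures of countable sets are second countable -/
def T_MON : Prop := MA1 → ∀ (X : Type) [TopologicalSpace X] [CompactSpace X] [T2Space X], CT X →
  ∀ (L : Set (X → ℝ)) (l : Om → X → ℝ), Sys X L l → ∀ A : Set X, A.Countable →
  ∃ δ : Om, ∀ x ∈ closure A, ∀ y ∈ closure A, (∀ ξ, ξ < δ → l ξ x = l ξ y) → x = y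

/-- DEN: a dense `ω₁`-sequence -/
def T_DEN : Prop := ∀ (X : Type) [TopologicalSpace X] [CompactSpace X] [Nonempty X]
  (l : Om → X → ℝ), (∀ ξ, Continuous (l ξ)) → (∀ x y, (∀ ξ, l ξ x = l ξ y) → x = y) →
  ∃ d : Om → X, DenseRange d

/-- DIC: the dichotomy -/
def T_DIC : Prop := ∀ (X : Type) [TopologicalSpace X] [CompactSpace X], CT X →
  ∀ (l : Om → X → ℝ) (d : Om → X), (∀ ξ, Continuous (l ξ)) → DenseRange d →
  ∀ ε : ℝ, 0 < ε →
  (∃ (J : Set Om) (g : X → ℝ), Continuous g ∧ ¬ J.Countable ∧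
    ∀ x, {ξ | ξ ∈ J ∧ ε ≤ |l ξ x - g x|}.Countable) ∨
  ∃ B : Om → Om, (∀ β, β < B β) ∧
    ∀ δ ∈ Cl B, {ξ | ∀ z ∈ PP l d δ, |df (l ξ) z| < ε}.Countable

/-- CDS: countable dense subsets -/
def T_CDS : Prop := ∀ (X : Type) [TopologicalSpace X] [CompactSpace X] (l : Om → X → ℝ),
  (∀ ξ, Continuous (l ξ)) → ∀ F : Set X, IsClosed F → ∀ δ : Om,
  (∀ x ∈ F, ∀ y ∈ F, (∀ ξ, ξ < δ → l ξ x = l ξ y) → x = y) →
  ∀ P : Set (X × X), (∀ z ∈ P, z.1 ∈ F ∧ z.2 ∈ F) → ∃ W ⊆ P, W.Countable ∧ P ⊆ closure W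

/-- CLU: closed unbounded sets -/
def T_CLU : Prop := ∀ B : Om → Om, (∀ β, β < B β) → ∀ w : Om, ∃ δ ∈ Cl B, w < δ

/-- NMX: the last level at which a polynomial is not almost constant -/
def T_NMX : Prop := ∀ (X : Type) [TopologicalSpace X] [CompactSpace X] (l : Om → X → ℝ)
  (d : Om → X) (B : Om → Om), (∀ ξ, Continuous (l ξ)) → (∀ β, β < B β) →
  ∀ (p : MvPolynomial Om ℚ) (a : ℝ), 0 < a →
  (∀ δ ∈ Cl B, ∀ z ∈ PP l d δ, |df (ev l p) z| < a) ∨
  ∃ γ ∈ Cl B, (∃ z ∈ PP l d γ, a ≤ |df (ev l p) z|) ∧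
    ∀ δ ∈ Cl B, γ < δ → ∀ z ∈ PP l d δ, |df (ev l p) z| < a

/-- PRM: the poset of promises -/
def T_PRM : Prop := MA1 → ∀ (X : Type) [TopologicalSpace X] [CompactSpace X] [T2Space X], CT X →
  ∀ l : Om → X → ℝ, (∀ ξ, Continuous (l ξ)) →
  ∀ (Z : Option Om → Set (X × X)) (N : Option Om → Set Om) (R : ℝ), 0 < R →
  (∀ o, (Z o).Countable) → (∀ o, (N o).Countable) →
  (∀ p : MvPolynomial Om ℚ, ∃ o : Option Om,
    (∀ γ, o = some γ → ∃ w ∈ Z o, (∀ ξ, ξ < γ → l ξ w.1 = l ξ w.2) ∧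
      2 * R ≤ |df (ev l p) w|) ∧
    ∀ ξ, ξ ∉ N o → ∃ w ∈ Z o, 2 * R ≤ |df (l ξ) w - df (ev l p) w|) →
  ∃ J : Set Om, ¬ J.Countable ∧ ∀ p : MvPolynomial Om ℚ, ∃ F : Finset ((X × X) × ℚ),
    (∀ u ∈ F, |df (ev l p) u.1 - (u.2 : ℝ)| < R / 2) ∧
    {ξ | ξ ∈ J ∧ ∀ u ∈ F, |df (l ξ) u.1 - (u.2 : ℝ)| < R}.Countable

/-- BAD: the second alternative of the dichotomy is impossible -/
def T_BAD : Prop := MA1 → ∀ (X : Type) [TopologicalSpace X] [CompactSpace X] [T2Space X], CT X →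
  ∀ (L : Set (X → ℝ)) (l : Om → X → ℝ), Sys X L l → ∀ (d : Om → X) (B : Om → Om) (ε : ℝ),
  (∀ β, β < B β) → 0 < ε →
  (∀ δ ∈ Cl B, ∃ W ⊆ PP l d δ, W.Countable ∧ PP l d δ ⊆ closure W) →
  ¬ ∀ δ ∈ Cl B, {ξ | ∀ z ∈ PP l d δ, |df (l ξ) z| < ε}.Countable

/-- MT: the main lemma -/
def T_MT : Prop := MA1 → ∀ (X : Type) [TopologicalSpace X] [CompactSpace X] [T2Space X], CT X →
  ∀ (L : Set (X → ℝ)) (l : Om → X → ℝ), Sys X L l → ∀ ε : ℝ, 0 < ε →
  ∃ (J : Set Om) (g : X → ℝ), Continuous g ∧ ¬ J.Countable ∧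
    ∀ x, {ξ | ξ ∈ J ∧ ε ≤ |l ξ x - g x|}.Countable

/-- RED: reduction of the general case to the main lemma -/
def T_RED : Prop := MA1 → ∀ (X : Type) [TopologicalSpace X] [CompactSpace X] [T2Space X],
  CT X → ∀ L : Set (X → ℝ), IsLindelof L → Sep L → CoConv2 L

end Pool.Agent.H64.AG
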