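import Pool.Agent.H64.AG.Defs

/-! # The poset of promises -/

set_option autoImplicit false

open Topology Cardinal

namespace Pool.Agent.H64.AG

open Pool.Agent.H20.SL Pool.Agent.H64.AK Pool.Agent.H60.CP

theorem prm (hGF : T_GF) (hCC : T_CC) (hTP1 : T_TP1) (hTP : T_TP) : T_PRM := by
  classical
  intro hMA X _ _ _ hCT l hl Z N R hR hZ hN hyp
  have hne : Nonempty X := by
    by_contra h
    rw [not_nonempty_iff] at h
    obtain ⟨o, -, h2⟩ := hyp 0
    apply OmegaOne.unc (W := Om)
    refine (hN o).mono ?_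
    intro ξ _
    by_contra hξ
    obtain ⟨w, -, -⟩ := h2 ξ hξ
    exact h.elim w.1
  obtain ⟨x0⟩ := hne
  -- promises
  let Adm : Option Om × Finset ((X × X) × ℚ) → Prop := fun π => (∀ u ∈ π.2, u.1 ∈ Z π.1) ∧
    ∀ γ, π.1 = some γ → ∃ u ∈ π.2, (∀ ξ, ξ < γ → l ξ u.1.1 = l ξ u.1.2) ∧
      3 * R / 2 < |(u.2 : ℝ)|
  let Pr : Type := {π : Option Om × Finset ((X × X) × ℚ) // Adm π}
  have hPrc : ∀ o, {π : Pr | π.1.1 = o}.Countable := by
    intro o
    have h1 : {F : Finset ((X × X) × ℚ) | ∀ u ∈ F, u.1 ∈ Z o}.Countable := by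
      have hs : {u : (X × X) × ℚ | u.1 ∈ Z o}.Countable := by
        have : {u : (X × X) × ℚ | u.1 ∈ Z o} = Z o ×ˢ (Set.univ : Set ℚ) := by
          ext u
          simp
        rw [this]
        exact (hZ o).prod (Set.to_countable _)
      have := hs.to_subtype
      refine (Set.countable_range (fun F : Finset {u : (X × X) × ℚ | u.1 ∈ Z o} =>
        F.map (Function.Embedding.subtype _))).mono ?_
      intro F hF
      refine ⟨F.subtype (fun u => u ∈ {u : (X × X) × ℚ | u.1 ∈ Z o}), ?_⟩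
      exact Finset.subtype_map_of_mem (fun u hu => hF u hu)
    refine Set.countable_of_injective_of_countable_image (f := fun π : Pr => π.1.2) ?_
      (h1.mono ?_)
    · intro π hπ π' hπ' hE
      refine Subtype.ext (Prod.ext ?_ hE)
      exact (show π.1.1 = o from hπ).trans (show π'.1.1 = o from hπ').symm
    · rintro _ ⟨π, hπ, rfl⟩ u hu
      have h2 := π.2.1 u hu
      rw [show π.1.1 = o from hπ] at h2
      exact h2
  have hwt : ∀ π : Pr, ∃ w : X × X, ∀ γ, π.1.1 = some γ → (∀ ξ, ξ < γ → l ξ w.1 = l ξ w.2) ∧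
      ∃ q : ℚ, (w, q) ∈ π.1.2 ∧ 3 * R / 2 < |(q : ℝ)| := by
    intro π
    rcases hπ : π.1.1 with _ | γ
    · exact ⟨(x0, x0), fun γ h => by simp at h⟩
    · obtain ⟨u, hu, hu1, hu2⟩ := π.2.2 γ hπ
      refine ⟨u.1, fun γ' h => ?_⟩
      have hE : γ = γ' := by simpa using h
      subst hE
      exact ⟨hu1, u.2, hu, hu2⟩
  choose wt hwt using hwt
  let Vio : Pr → Om → Prop := fun π ξ => ξ ∉ N π.1.1 ∧
    ∀ u ∈ π.1.2, |df (l ξ) u.1 - (u.2 : ℝ)| < R
  let Bad : Om ⊕ Pr → Om ⊕ Pr → Prop := fun s t => match s, t with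
    | Sum.inl ξ, Sum.inr π => Vio π ξ
    | Sum.inr π, Sum.inl ξ => Vio π ξ
    | Sum.inl _, Sum.inl _ => False
    | Sum.inr _, Sum.inr _ => False
  have hsym : ∀ s t, Bad s t → Bad t s := by
    rintro (ξ | π) (ξ' | π') h
    · exact h
    · exact h
    · exact h
    · exact h
  let z : Om ⊕ Pr → X × X := Sum.elim (fun _ => (x0, x0)) wt
  let h : Om ⊕ Pr → X × X → ℝ := Sum.elim (fun ξ => df (l ξ)) (fun _ _ => 0)
  let S₀ : Set (Om ⊕ Pr) := Sum.inr '' {π : Pr | π.1.1 = none}
  have hFCC : FCC Bad := by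
    refine hCC (X × X) (hTP (X × X) (hTP1 X X hCT hCT)) (Om ⊕ Pr) Bad z h S₀ (R / 2) ?_ ?_ ?_ ?_ ?_
    · rintro (ξ | π)
      · exact df_continuous (hl ξ)
      · exact continuous_const
    · positivity
    · exact (hPrc none).image _
    · rintro (ξ | π)
      · have h1 : {t | R / 2 / 2 ≤ |h (Sum.inl ξ) (z t)|} ⊆
            Sum.inr '' (⋃ o ∈ insert (none : Option Om) (some '' Set.Iic ξ),
              {π : Pr | π.1.1 = o}) := by
          rintro (η | π) ht
          · exfalso
            have h2 : R / 2 / 2 ≤ |df (l ξ) (x0, x0)| := ht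
            have h3 : df (l ξ) (x0, x0) = 0 := sub_self _
            rw [h3, abs_zero] at h2
            linarith
          · refine ⟨π, ?_, rfl⟩
            rcases hπ : π.1.1 with _ | γ
            · exact Set.mem_biUnion (Set.mem_insert _ _) hπ
            · refine Set.mem_biUnion (Set.mem_insert_of_mem _ ⟨γ, ?_, rfl⟩) hπ
              by_contra hγ
              have h2 : R / 2 / 2 ≤ |df (l ξ) (wt π)| := ht
              have h3 : df (l ξ) (wt π) = 0 :=
                sub_eq_zero.2 ((hwt π γ hπ).1 ξ (not_le.1 hγ))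
              rw [h3, abs_zero] at h2
              linarith
        refine Set.Countable.mono h1 (Set.Countable.image ?_ _)
        exact (((cIic ξ).image some).insert none).biUnion fun o _ => hPrc o
      · have h1 : {t | R / 2 / 2 ≤ |h (Sum.inr π) (z t)|} ⊆ ∅ := by
          intro t ht
          have h2 : R / 2 / 2 ≤ |(0 : ℝ)| := ht
          rw [abs_zero] at h2
          exfalso
          linarith
        exact Set.countable_empty.mono h1
    · have key : ∀ (ξ : Om) (π : Pr), Vio π ξ → (Sum.inr π : Om ⊕ Pr) ∈ S₀ ∨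
          R / 2 ≤ |df (l ξ) (wt π)| := by
        rintro ξ π ⟨-, hv⟩
        rcases hπ : π.1.1 with _ | γ
        · exact Or.inl ⟨π, hπ, rfl⟩
        · obtain ⟨-, q, hq, hq'⟩ := hwt π γ hπ
          have h1 := hv _ hq
          right
          have h2 : |(q : ℝ)| - |df (l ξ) (wt π)| ≤ |df (l ξ) (wt π) - (q : ℝ)| := by
            rw [abs_sub_comm]
            exact abs_sub_abs_le_abs_sub _ _
          have h3 : |df (l ξ) (wt π) - (q : ℝ)| < R := h1
          linarith
      rintro (ξ | π) (ξ' | π') hb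
      · exact False.elim hb
      · rcases key ξ π' hb with h1 | h1
        · exact Or.inr (Or.inl h1)
        · exact Or.inr (Or.inr (Or.inl h1))
      · rcases key ξ' π hb with h1 | h1
        · exact Or.inl h1
        · exact Or.inr (Or.inr (Or.inr h1))
      · exact False.elim hb
  have hinlc : ∀ J : Set Om, (Sum.inl '' J : Set (Om ⊕ Pr)).Countable → J.Countable :=
    fun J hJ => Set.countable_of_injective_of_countable_image Sum.inl_injective.injOn hJ
  obtain ⟨G, hGfree, hGR, hGu⟩ := hGF hMA (Om ⊕ Pr) Bad hsym hFCC (MvPolynomial Om ℚ)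
    (fun p => {s | ∃ π : Pr, s = Sum.inr π ∧
      ∀ u ∈ π.1.2, |df (ev l p) u.1 - (u.2 : ℝ)| < R / 2}) (by
      refine MvPolynomial.cardinalMk_le_max.trans ?_
      rw [mk_Om, Cardinal.mkRat]
      simp [Cardinal.aleph0_le_aleph]) (by
      intro p fr hfr
      obtain ⟨o, ho1, ho2⟩ := hyp p
      have hu : ∀ ξ : Om, ∃ u : (X × X) × ℚ, ξ ∉ N o → u.1 ∈ Z o ∧
          |df (ev l p) u.1 - (u.2 : ℝ)| < R / 2 ∧ R ≤ |df (l ξ) u.1 - (u.2 : ℝ)| := by
        intro ξ
        by_cases hξ : ξ ∈ N o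
        · exact ⟨((x0, x0), 0), fun h' => absurd hξ h'⟩
        · obtain ⟨w, hw, hwR⟩ := ho2 ξ hξ
          obtain ⟨q, hq1, hq2⟩ := exists_rat_btwn
            (show df (ev l p) w - R / 2 < df (ev l p) w + R / 2 by linarith)
          refine ⟨(w, q), fun _ => ⟨hw, ?_, ?_⟩⟩
          · rw [abs_lt]
            constructor <;> linarith
          · have h1 : |df (l ξ) w - df (ev l p) w| ≤ |df (l ξ) w - (q : ℝ)| +
                |(q : ℝ) - df (ev l p) w| := abs_sub_le _ _ _
            have h2 : |(q : ℝ) - df (ev l p) w| < R / 2 := by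
              rw [abs_lt]
              constructor <;> linarith
            show R ≤ |df (l ξ) w - (q : ℝ)|
            linarith
      choose u hu using hu
      have hF0 : ∃ F0 : Finset ((X × X) × ℚ), (∀ v ∈ F0, v.1 ∈ Z o ∧
          |df (ev l p) v.1 - (v.2 : ℝ)| < R / 2) ∧ ∀ γ, o = some γ → ∃ v ∈ F0,
            (∀ ξ, ξ < γ → l ξ v.1.1 = l ξ v.1.2) ∧ 3 * R / 2 < |(v.2 : ℝ)| := by
        rcases o with _ | γ
        · exact ⟨∅, by simp, fun γ h => by simp at h⟩
        · obtain ⟨w, hw, hw1, hw2⟩ := ho1 γ rfl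
          obtain ⟨q, hq1, hq2⟩ := exists_rat_btwn
            (show df (ev l p) w - R / 2 < df (ev l p) w + R / 2 by linarith)
          refine ⟨{(w, q)}, ?_, ?_⟩
          · intro v hv
            rw [Finset.mem_singleton.1 hv]
            refine ⟨hw, ?_⟩
            rw [abs_lt]
            constructor <;> linarith
          · intro γ' hE
            have hE' : γ = γ' := by simpa using hE
            subst hE'
            refine ⟨(w, q), Finset.mem_singleton_self _, hw1, ?_⟩
            have h1 : |df (ev l p) w| - |(q : ℝ)| ≤ |df (ev l p) w - (q : ℝ)| :=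
              abs_sub_abs_le_abs_sub _ _
            have h2 : |df (ev l p) w - (q : ℝ)| < R / 2 := by
              rw [abs_lt]
              constructor <;> linarith
            show 3 * R / 2 < |(q : ℝ)|
            linarith
      obtain ⟨F0, hF0a, hF0b⟩ := hF0
      let F1 : Finset ((X × X) × ℚ) := (fr.toLeft.filter fun ξ => ξ ∉ N o).image u
      have hF1 : ∀ v ∈ F1, v.1 ∈ Z o ∧ |df (ev l p) v.1 - (v.2 : ℝ)| < R / 2 := by
        intro v hv
        obtain ⟨ξ, hξ, rfl⟩ := Finset.mem_image.1 hv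
        obtain ⟨-, hξN⟩ := Finset.mem_filter.1 hξ
        exact ⟨(hu ξ hξN).1, (hu ξ hξN).2.1⟩
      have hadm : Adm (o, F0 ∪ F1) := by
        refine ⟨fun v hv => ?_, fun γ hγ => ?_⟩
        · rcases Finset.mem_union.1 hv with h1 | h1
          · exact (hF0a v h1).1
          · exact (hF1 v h1).1
        · obtain ⟨v, hv, hv'⟩ := hF0b γ hγ
          exact ⟨v, Finset.mem_union_left _ hv, hv'⟩
      let π : Pr := ⟨(o, F0 ∪ F1), hadm⟩
      have hπv : ∀ ξ : Om, (Sum.inl ξ : Om ⊕ Pr) ∈ fr → ¬ Vio π ξ := by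
        rintro ξ hξ ⟨h1, h2⟩
        have h3 : u ξ ∈ F0 ∪ F1 := by
          refine Finset.mem_union_right _ (Finset.mem_image.2 ⟨ξ, ?_, rfl⟩)
          exact Finset.mem_filter.2 ⟨Finset.mem_toLeft.2 hξ, h1⟩
        exact absurd (h2 _ h3) (not_lt.2 (hu ξ h1).2.2)
      refine ⟨Sum.inr π, ⟨π, rfl, ?_⟩, ?_⟩
      · intro v hv
        rcases Finset.mem_union.1 hv with h1 | h1
        · exact (hF0a v h1).2
        · exact (hF1 v h1).2
      · rintro a (rfl | ha) b (rfl | hb)
        · exact fun h' => h'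
        · rcases b with ξ | π'
          · exact hπv ξ hb
          · exact fun h' => h'
        · rcases a with ξ | π'
          · exact hπv ξ ha
          · exact fun h' => h'
        · exact hfr a ha b hb)
    (Set.range Sum.inl) (by
      intro hc
      refine OmegaOne.unc (W := Om) (hinlc _ ?_)
      rw [Set.image_univ]
      exact hc) (by
      refine Cardinal.mk_range_le.trans ?_
      rw [mk_Om]) (by
      rintro _ ⟨ξ, rfl⟩
      exact fun h' => h')
  refine ⟨{ξ | (Sum.inl ξ : Om ⊕ Pr) ∈ G}, ?_, fun p => ?_⟩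
  · intro hc
    apply hGu
    refine (hc.image (Sum.inl : Om → Om ⊕ Pr)).mono ?_
    rintro _ ⟨hs, ξ, rfl⟩
    exact ⟨ξ, hs, rfl⟩
  · obtain ⟨_, ⟨π, rfl, hπ⟩, hπG⟩ := hGR p
    refine ⟨π.1.2, hπ, (hN π.1.1).mono ?_⟩
    rintro ξ ⟨hξ, hv⟩
    by_contra hξN
    exact hGfree _ hξ _ hπG (show Vio π ξ from ⟨hξN, hv⟩)

end Pool.Agent.H64.AG
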